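import Pool.Agent.UCAlmost.Exits

/-!
# Double counting for union-closed families

`F` is a family of subsets of a finite type with `n` elements.

* Counting the pairs (member, element) in two ways gives
  `2 n |F| + 2 Σ_{C ∈ core F} (|C| - 1) ≤ 4 Σ_{A ∈ F} |A| + 2^n`
  for every union-closed `F`, where `core F` is the set of members with at most one lower
  neighbour in `F`.
* A union-closed family is determined by its core, so few union-closed families have a core
  of small total size.
-/

namespace Pool.Agent.UCAlmost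

open Finset Filter

/-- The members `C` of `F` for which at most one `x ∈ C` has `C \ {x} ∈ F`. -/
def core {α : Type*} [DecidableEq α] (F : Finset (Finset α)) : Finset (Finset α) :=
  F.filter (fun C => (C.filter (fun x => C.erase x ∈ F)).card ≤ 1)

/-- The members of `F` which are not the union of two members of `F` different from them. -/
def irreducibles {α : Type*} [DecidableEq α] (F : Finset (Finset α)) : Finset (Finset α) :=
  F.filter (fun C => ∀ A ∈ F, ∀ B ∈ F, A ∪ B = C → A = C ∨ B = C)

/-- The frequency of `x` in `F`. -/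
def freq {α : Type*} [DecidableEq α] (F : Finset (Finset α)) (x : α) : ℕ :=
  (F.filter (fun A => x ∈ A)).card

section Criterion

variable {α : Type*} [Fintype α] [DecidableEq α]

/-- Pairs inside the family: going down from `A` to `A \ {x}` and going up. -/
theorem inner_eq (F : Finset (Finset α)) :
    ∑ A ∈ F, (A.filter (fun x => A.erase x ∈ F)).card =
      ∑ A ∈ F, (Aᶜ.filter (fun x => insert x A ∈ F)).card := by
  rw [← Finset.card_sigma, ← Finset.card_sigma]
  refine Finset.card_nbij' (fun p => ⟨p.1.erase p.2, p.2⟩) (fun p => ⟨insert p.2 p.1, p.2⟩)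
    ?_ ?_ ?_ ?_
  · rintro ⟨A, x⟩ hp
    simp only [Finset.coe_sigma, Set.mem_sigma_iff, Finset.mem_coe, Finset.mem_filter,
      Finset.mem_compl] at hp ⊢
    obtain ⟨hA, hx, hAx⟩ := hp
    refine ⟨hAx, by simp, ?_⟩
    rw [Finset.insert_erase hx]
    exact hA
  · rintro ⟨A, x⟩ hp
    simp only [Finset.coe_sigma, Set.mem_sigma_iff, Finset.mem_coe, Finset.mem_filter,
      Finset.mem_compl] at hp ⊢
    obtain ⟨hA, hx, hAx⟩ := hp
    refine ⟨hAx, by simp, ?_⟩
    rw [Finset.erase_insert hx]
    exact hA
  · rintro ⟨A, x⟩ hp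
    simp only [Finset.coe_sigma, Set.mem_sigma_iff, Finset.mem_coe, Finset.mem_filter,
      Finset.mem_compl] at hp ⊢
    obtain ⟨hA, hx, hAx⟩ := hp
    simp [Finset.insert_erase hx]
  · rintro ⟨A, x⟩ hp
    simp only [Finset.coe_sigma, Set.mem_sigma_iff, Finset.mem_coe, Finset.mem_filter,
      Finset.mem_compl] at hp ⊢
    obtain ⟨hA, hx, hAx⟩ := hp
    simp [Finset.erase_insert hx]

omit [Fintype α] in
/-- Members in the core have many missing lower neighbours. -/
theorem core_le (F : Finset (Finset α)) :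
    ∑ C ∈ core F, (C.card - 1) ≤ ∑ A ∈ F, (A.filter (fun x => ¬ A.erase x ∈ F)).card := by
  calc ∑ C ∈ core F, (C.card - 1)
      ≤ ∑ C ∈ core F, (C.filter (fun x => ¬ C.erase x ∈ F)).card := by
        refine Finset.sum_le_sum fun C hC => ?_
        have h1 := (Finset.mem_filter.1 hC).2
        have h2 := Finset.card_filter_add_card_filter_not (s := C) (fun x => C.erase x ∈ F)
        omega
    _ ≤ _ := Finset.sum_le_sum_of_subset (Finset.filter_subset _ _)

/-- The double counting inequality. -/
theorem main_inequality (F : Finset (Finset α)) (hF : UnionClosed F) :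
    2 * Fintype.card α * F.card + 2 * ∑ C ∈ core F, (C.card - 1) ≤
      4 * ∑ A ∈ F, A.card + 2 ^ Fintype.card α := by
  have h1 : ∑ A ∈ F, A.card = ∑ A ∈ F, (A.filter (fun x => A.erase x ∈ F)).card +
      ∑ A ∈ F, (A.filter (fun x => ¬ A.erase x ∈ F)).card := by
    rw [← Finset.sum_add_distrib]
    refine Finset.sum_congr rfl fun A _ => ?_
    rw [Finset.card_filter_add_card_filter_not]
  have h2 : ∑ A ∈ F, (Aᶜ).card = ∑ A ∈ F, (Aᶜ.filter (fun x => insert x A ∈ F)).card +
      ∑ A ∈ F, (Aᶜ.filter (fun x => ¬ insert x A ∈ F)).card := by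
    rw [← Finset.sum_add_distrib]
    refine Finset.sum_congr rfl fun A _ => ?_
    rw [Finset.card_filter_add_card_filter_not]
  have h3 : ∑ A ∈ F, A.card + ∑ A ∈ F, (Aᶜ).card = Fintype.card α * F.card := by
    rw [← Finset.sum_add_distrib, Finset.sum_congr rfl (fun A _ => Finset.card_add_card_compl A),
      Finset.sum_const, smul_eq_mul, mul_comm]
  have h5 := inner_eq F
  have h6 := two_up_le F hF
  have h7 := core_le F
  have h8 : 2 * Fintype.card α * F.card = 2 * (Fintype.card α * F.card) := by ring
  omega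

/-- The sum of the frequencies is the total size. -/
theorem sum_freq (F : Finset (Finset α)) : ∑ x, freq F x = ∑ A ∈ F, A.card := by
  unfold freq
  simp only [Finset.card_filter]
  rw [Finset.sum_comm]
  refine Finset.sum_congr rfl fun A _ => ?_
  simp

/-- If the core of the union-closed family `F` has large total size then the average size of
the members is more than `n/2`, and some element lies in more than half of the members. -/
theorem criterion (F : Finset (Finset α)) (hF : UnionClosed F)
    (h : 2 ^ Fintype.card α < 2 * ∑ C ∈ core F, (C.card - 1)) :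
    Fintype.card α * F.card < 2 * ∑ A ∈ F, A.card ∧ ∃ x, F.card < 2 * freq F x := by
  have h1 := main_inequality F hF
  have h3 : 2 * Fintype.card α * F.card = 2 * (Fintype.card α * F.card) := by ring
  have h0 : Fintype.card α * F.card < 2 * ∑ A ∈ F, A.card := by omega
  refine ⟨h0, ?_⟩
  by_contra hcon
  push Not at hcon
  have h2 : ∑ x, 2 * freq F x ≤ ∑ _x : α, F.card := Finset.sum_le_sum fun x _ => hcon x
  rw [← Finset.mul_sum, sum_freq, Finset.sum_const, smul_eq_mul, Finset.card_univ] at h2
  omega

omit [Fintype α] in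
/-- A union-closed family is determined by its core. -/
theorem core_subset (F G : Finset (Finset α)) (hG : UnionClosed G)
    (h : core F = core G) : F ⊆ G := by
  intro C hC
  induction hk : C.card using Nat.strong_induction_on generalizing C with
  | _ k ih =>
    by_cases hcore : C ∈ core F
    · rw [h] at hcore
      exact (Finset.mem_filter.1 hcore).1
    · have h1 : 1 < (C.filter (fun x => C.erase x ∈ F)).card := by
        by_contra h2
        exact hcore (Finset.mem_filter.2 ⟨hC, by omega⟩)
      obtain ⟨x, hx, y, hy, hxy⟩ := Finset.one_lt_card.1 h1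
      obtain ⟨hxC, hxF⟩ := Finset.mem_filter.1 hx
      obtain ⟨hyC, hyF⟩ := Finset.mem_filter.1 hy
      have hx1 : C.erase x ∈ G := ih _ (by rw [← hk]; exact Finset.card_erase_lt_of_mem hxC)
        hxF rfl
      have hy1 : C.erase y ∈ G := ih _ (by rw [← hk]; exact Finset.card_erase_lt_of_mem hyC)
        hyF rfl
      have hU : C.erase x ∪ C.erase y = C := by
        ext z
        simp only [Finset.mem_union, Finset.mem_erase]
        constructor
        · rintro (h1 | h1)
          · exact h1.2
          · exact h1.2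
        · intro hz
          by_cases hzx : z = x
          · right
            exact ⟨fun h => hxy (hzx.symm.trans h), hz⟩
          · left
            exact ⟨hzx, hz⟩
      rw [← hU]
      exact hG _ hx1 _ hy1

omit [Fintype α] in
theorem core_injective (F G : Finset (Finset α)) (hF : UnionClosed F) (hG : UnionClosed G)
    (h : core F = core G) : F = G :=
  Finset.Subset.antisymm (core_subset F G hG h) (core_subset G F hF h.symm)

omit [Fintype α] in
theorem irreducibles_subset_core (F : Finset (Finset α)) : irreducibles F ⊆ core F := by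
  intro C hC
  obtain ⟨hCF, hirr⟩ := Finset.mem_filter.1 hC
  refine Finset.mem_filter.2 ⟨hCF, ?_⟩
  by_contra h1
  push Not at h1
  obtain ⟨x, hx, y, hy, hxy⟩ := Finset.one_lt_card.1 h1
  obtain ⟨hxC, hxF⟩ := Finset.mem_filter.1 hx
  obtain ⟨hyC, hyF⟩ := Finset.mem_filter.1 hy
  have hU : C.erase x ∪ C.erase y = C := by
    ext z
    simp only [Finset.mem_union, Finset.mem_erase]
    constructor
    · rintro (h1 | h1)
      · exact h1.2
      · exact h1.2
    · intro hz
      by_cases hzx : z = x
      · right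
        exact ⟨fun h => hxy (hzx.symm.trans h), hz⟩
      · left
        exact ⟨hzx, hz⟩
  rcases hirr _ hxF _ hyF hU with h | h
  · rw [← h] at hxC
    exact absurd hxC (by simp)
  · rw [← h] at hyC
    exact absurd hyC (by simp)

end Criterion

section Counting

variable {α : Type*} [Fintype α] [DecidableEq α]

open scoped Classical in
/-- Few families have small total weight. -/
theorem count_light (M : ℕ) (u : ℝ) (hu0 : 0 < u) (hu1 : u ≤ 1) :
    (((univ : Finset (Finset (Finset α))).filter
      (fun G => ∑ C ∈ G, (C.card - 1) ≤ M)).card : ℝ) * u ^ M ≤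
      Real.exp ((u + 1) ^ Fintype.card α / u) := by
  calc (((univ : Finset (Finset (Finset α))).filter
      (fun G => ∑ C ∈ G, (C.card - 1) ≤ M)).card : ℝ) * u ^ M
      = ∑ _G ∈ (univ : Finset (Finset (Finset α))).filter
          (fun G => ∑ C ∈ G, (C.card - 1) ≤ M), u ^ M := by
        rw [Finset.sum_const, nsmul_eq_mul]
    _ ≤ ∑ G ∈ (univ : Finset (Finset (Finset α))).filter
          (fun G => ∑ C ∈ G, (C.card - 1) ≤ M), u ^ (∑ C ∈ G, (C.card - 1)) := by
        refine Finset.sum_le_sum fun G hG => ?_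
        exact pow_le_pow_of_le_one hu0.le hu1 (Finset.mem_filter.1 hG).2
    _ ≤ ∑ G : Finset (Finset α), u ^ (∑ C ∈ G, (C.card - 1)) := by
        refine Finset.sum_le_sum_of_subset_of_nonneg (Finset.filter_subset _ _) fun G _ _ => ?_
        positivity
    _ = ∏ C : Finset α, (1 + u ^ (C.card - 1)) := by
        rw [Finset.prod_one_add, Finset.powerset_univ]
        refine Finset.sum_congr rfl fun G _ => ?_
        rw [Finset.prod_pow_eq_pow_sum]
    _ ≤ ∏ C : Finset α, Real.exp (u ^ (C.card - 1)) := by
        refine Finset.prod_le_prod (fun C _ => by positivity) fun C _ => ?_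
        rw [add_comm]
        exact Real.add_one_le_exp _
    _ = Real.exp (∑ C : Finset α, u ^ (C.card - 1)) := by
        rw [Real.exp_sum]
    _ ≤ Real.exp ((u + 1) ^ Fintype.card α / u) := by
        refine Real.exp_le_exp.2 ?_
        rw [← Fintype.sum_pow_mul_eq_add_pow, Finset.sum_div]
        refine Finset.sum_le_sum fun C _ => ?_
        rw [one_pow, mul_one, le_div_iff₀ hu0]
        rcases Nat.eq_zero_or_pos C.card with h0 | h0
        · rw [h0]
          simpa using hu1
        · rw [← pow_succ, Nat.sub_add_cancel h0]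

end Counting

/-- Few sets have at most `(1/2 - η) n` elements. -/
theorem small_sets (n k : ℕ) (η : ℝ) (h0 : 0 < η) (h1 : η < 1 / 2)
    (hk : (k : ℝ) ≤ (1 / 2 - η) * n) :
    (((univ : Finset (Finset (Fin n))).filter (fun C => C.card ≤ k)).card : ℝ) ≤
      2 ^ n * Real.exp (-(η ^ 2 / 2)) ^ n := by
  have hu0 : 0 < 1 - η := by linarith
  have h2 : (((univ : Finset (Finset (Fin n))).filter (fun C => C.card ≤ k)).card : ℝ) *
      (1 - η) ^ k ≤ (1 - η + 1) ^ n := by
    calc (((univ : Finset (Finset (Fin n))).filter (fun C => C.card ≤ k)).card : ℝ) *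
          (1 - η) ^ k
        = ∑ _C ∈ (univ : Finset (Finset (Fin n))).filter (fun C => C.card ≤ k),
            (1 - η) ^ k := by
          rw [Finset.sum_const, nsmul_eq_mul]
      _ ≤ ∑ C ∈ (univ : Finset (Finset (Fin n))).filter (fun C => C.card ≤ k),
            (1 - η) ^ C.card := by
          refine Finset.sum_le_sum fun C hC => ?_
          exact pow_le_pow_of_le_one hu0.le (by linarith) (Finset.mem_filter.1 hC).2
      _ ≤ ∑ C : Finset (Fin n), (1 - η) ^ C.card := by
          refine Finset.sum_le_sum_of_subset_of_nonneg (Finset.filter_subset _ _)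
            fun C _ _ => ?_
          positivity
      _ = (1 - η + 1) ^ n := by
          have := Fintype.sum_pow_mul_eq_add_pow (Fin n) (1 - η) (1 : ℝ)
          simpa using this
  have h3 : Real.exp (-(η / (1 - η))) ≤ 1 - η := by
    have h4 : 1 + η / (1 - η) ≤ Real.exp (η / (1 - η)) := by
      rw [add_comm]
      exact Real.add_one_le_exp _
    have h5 : 1 + η / (1 - η) = (1 - η)⁻¹ := by
      field_simp
      ring
    rw [h5] at h4
    rw [Real.exp_neg]
    exact inv_le_of_inv_le₀ hu0 h4
  have h4 : Real.exp (-(k * (η / (1 - η)))) ≤ (1 - η) ^ k := by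
    calc Real.exp (-(k * (η / (1 - η)))) = Real.exp (-(η / (1 - η))) ^ k := by
          rw [← Real.exp_nat_mul]
          congr 1
          ring
      _ ≤ _ := pow_le_pow_left₀ (Real.exp_nonneg _) h3 _
  have h5 : (1 - η + 1) ^ n ≤ 2 ^ n * Real.exp (-(n * (η / 2))) := by
    have h6 : 1 - η / 2 ≤ Real.exp (-(η / 2)) := by
      have := Real.add_one_le_exp (-(η / 2))
      linarith
    calc (1 - η + 1) ^ n = 2 ^ n * (1 - η / 2) ^ n := by
          rw [← mul_pow]
          congr 1
          ring
      _ ≤ 2 ^ n * Real.exp (-(η / 2)) ^ n :=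
          mul_le_mul_of_nonneg_left (pow_le_pow_left₀ (by linarith) h6 _) (by positivity)
      _ = _ := by
          rw [← Real.exp_nat_mul]
          congr 2
          ring
  have h6 : (((univ : Finset (Finset (Fin n))).filter (fun C => C.card ≤ k)).card : ℝ) *
      Real.exp (-(k * (η / (1 - η)))) ≤ 2 ^ n * Real.exp (-(n * (η / 2))) :=
    (mul_le_mul_of_nonneg_left h4 (Nat.cast_nonneg _)).trans (h2.trans h5)
  rw [Real.exp_neg, ← div_eq_mul_inv, div_le_iff₀ (Real.exp_pos _), mul_assoc,
    ← Real.exp_add] at h6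
  refine h6.trans (mul_le_mul_of_nonneg_left ?_ (by positivity))
  rw [← Real.exp_nat_mul]
  refine Real.exp_le_exp.2 ?_
  have hn0 : (0 : ℝ) ≤ n := Nat.cast_nonneg n
  have h7 : k * (η / (1 - η)) ≤ n * (η / 2 - η ^ 2 / 2) := by
    rw [← mul_div_assoc, div_le_iff₀ hu0]
    have h8 : k * η ≤ (1 / 2 - η) * n * η := mul_le_mul_of_nonneg_right hk h0.le
    have h9 : 0 ≤ n * η ^ 3 := by positivity
    nlinarith
  linarith

/-! ### The middle binomial coefficient -/

theorem central_sq (k : ℕ) (hk : 1 ≤ k) : 16 ^ k ≤ 4 * k * k.centralBinom ^ 2 := by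
  induction k, hk using Nat.le_induction with
  | base => norm_num [Nat.centralBinom]
  | succ m hm ih =>
    have h1 := Nat.succ_mul_centralBinom_succ m
    -- (m+1) * c(m+1) = 2 * (2m+1) * c(m)
    have h2 : (m + 1) ^ 2 * (m + 1).centralBinom ^ 2 =
        4 * (2 * m + 1) ^ 2 * m.centralBinom ^ 2 := by
      calc (m + 1) ^ 2 * (m + 1).centralBinom ^ 2
          = ((m + 1) * (m + 1).centralBinom) ^ 2 := by ring
        _ = _ := by rw [h1]; ring
    have h3 : (m + 1) * 16 ^ (m + 1) ≤ (m + 1) * (4 * (m + 1) * (m + 1).centralBinom ^ 2) := by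
      calc (m + 1) * 16 ^ (m + 1) = 16 * (m + 1) * 16 ^ m := by ring
        _ ≤ 16 * (m + 1) * (4 * m * m.centralBinom ^ 2) := Nat.mul_le_mul_left _ ih
        _ = 16 * (4 * m * (m + 1)) * m.centralBinom ^ 2 := by ring
        _ ≤ 16 * (2 * m + 1) ^ 2 * m.centralBinom ^ 2 := by
          refine Nat.mul_le_mul_right _ (Nat.mul_le_mul_left _ ?_)
          nlinarith
        _ = 4 * (4 * (2 * m + 1) ^ 2 * m.centralBinom ^ 2) := by ring
        _ = 4 * ((m + 1) ^ 2 * (m + 1).centralBinom ^ 2) := by rw [h2]
        _ = (m + 1) * (4 * (m + 1) * (m + 1).centralBinom ^ 2) := by ring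
    exact Nat.le_of_mul_le_mul_left h3 (Nat.succ_pos m)

/-- `2^n ≤ 2 √n C(n, n/2)`, squared. -/
theorem middle_sq (n : ℕ) (hn : 1 ≤ n) : 4 ^ n ≤ 4 * n * (n.choose (n / 2)) ^ 2 := by
  rcases Nat.even_or_odd' n with ⟨k, rfl | rfl⟩
  · have h1 := central_sq k (by omega)
    have h2 : 2 * k / 2 = k := by omega
    rw [h2, ← Nat.centralBinom_eq_two_mul_choose, pow_mul]
    calc (4 ^ 2) ^ k = 16 ^ k := by norm_num
      _ ≤ 4 * k * k.centralBinom ^ 2 := h1
      _ ≤ _ := by
        refine Nat.mul_le_mul_right _ ?_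
        omega
  · have h1 := central_sq (k + 1) (by omega)
    have h2 : (2 * k + 1) / 2 = k := by omega
    have h3 : (k + 1).centralBinom = 2 * (2 * k + 1).choose k := by
      rw [Nat.centralBinom_eq_two_mul_choose]
      have h4 : 2 * (k + 1) = (2 * k + 1) + 1 := by ring
      rw [h4, Nat.choose_succ_succ]
      have h5 : (2 * k + 1).choose (k + 1) = (2 * k + 1).choose k := by
        rw [← Nat.choose_symm_of_eq_add]
        omega
      rw [h5]
      ring
    rw [h2]
    rw [h3] at h1
    have h4 : 16 ^ (k + 1) = 4 * 4 ^ (2 * k + 1) := by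
      rw [pow_succ, pow_succ, pow_mul]
      norm_num
      ring
    rw [h4] at h1
    have h5 : 4 * 4 ^ (2 * k + 1) ≤ 4 * (4 * (k + 1) * ((2 * k + 1).choose k) ^ 2) := by
      calc 4 * 4 ^ (2 * k + 1) ≤ 4 * (k + 1) * (2 * (2 * k + 1).choose k) ^ 2 := h1
        _ = _ := by ring
    have h6 : 4 ^ (2 * k + 1) ≤ 4 * (k + 1) * ((2 * k + 1).choose k) ^ 2 :=
      Nat.le_of_mul_le_mul_left h5 (by norm_num)
    refine h6.trans (Nat.mul_le_mul_right _ ?_)
    omega

theorem middle_lower (n : ℕ) (hn : 1 ≤ n) :
    (2 : ℝ) ^ n / (2 * Real.sqrt n) ≤ (n.choose (n / 2) : ℝ) := by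
  have h1 := middle_sq n hn
  have hn0 : (0 : ℝ) < n := by exact_mod_cast hn
  have hs : 0 < Real.sqrt n := Real.sqrt_pos.2 hn0
  rw [div_le_iff₀ (by positivity)]
  have h2 : ((2 : ℝ) ^ n) ^ 2 ≤ ((n.choose (n / 2) : ℝ) * (2 * Real.sqrt n)) ^ 2 := by
    have h3 : ((4 : ℝ)) ^ n ≤ 4 * n * (n.choose (n / 2) : ℝ) ^ 2 := by exact_mod_cast h1
    have h4 : ((2 : ℝ) ^ n) ^ 2 = 4 ^ n := by
      rw [← pow_mul, mul_comm, pow_mul]
      norm_num
    have h5 : ((n.choose (n / 2) : ℝ) * (2 * Real.sqrt n)) ^ 2 =
        4 * n * (n.choose (n / 2) : ℝ) ^ 2 := by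
      rw [mul_pow, mul_pow, Real.sq_sqrt hn0.le]
      ring
    rw [h4, h5]
    exact h3
  exact le_of_sq_le_sq h2 (by positivity)

end Pool.Agent.UCAlmost
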