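import Mathlib

/-!
# Upward exits of union-closed families

For a union-closed family `F` of subsets of an `n`-element set, at most `2^(n-1)` sets outside
`F` cover a member of `F` (Karpas 2017). The proof here uses the signed adjacency matrix `M` of
the cube with `M^2 = n` (Huang): the sets outside `F` which cover a member of `F` fall into
classes, one for each direction `i`, without edges between different classes, and the class of
`i` has no edge in direction `i`; so no eigenvector of `M` is supported on these sets.
-/

namespace Pool.Agent.UCAlmost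

open Finset

/-- The family `F` is union-closed. -/
def UnionClosed {α : Type*} [DecidableEq α] (F : Finset (Finset α)) : Prop :=
  ∀ A ∈ F, ∀ B ∈ F, A ∪ B ∈ F

section Clifford

variable {α : Type*} [Fintype α] [DecidableEq α]

/-- Change the membership of `i`. -/
def tog (i : α) (A : Finset α) : Finset α := if i ∈ A then A.erase i else insert i A

omit [Fintype α] in
theorem mem_tog_self (i : α) (A : Finset α) : i ∈ tog i A ↔ i ∉ A := by
  unfold tog
  split_ifs with h <;> simp [h]

omit [Fintype α] in
theorem mem_tog_ne {i j : α} (A : Finset α) (h : j ≠ i) : j ∈ tog i A ↔ j ∈ A := by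
  unfold tog
  split_ifs with h1 <;> simp [h]

omit [Fintype α] in
theorem tog_tog (i : α) (A : Finset α) : tog i (tog i A) = A := by
  ext j
  by_cases h : j = i
  · subst h
    rw [mem_tog_self, mem_tog_self, not_not]
  · rw [mem_tog_ne _ h, mem_tog_ne _ h]

omit [Fintype α] in
theorem tog_comm (i j : α) (A : Finset α) : tog i (tog j A) = tog j (tog i A) := by
  by_cases hij : i = j
  · subst hij
    rfl
  · ext k
    by_cases h : k = i
    · subst h
      rw [mem_tog_self, mem_tog_ne _ hij, mem_tog_ne _ hij, mem_tog_self]
    · by_cases h' : k = j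
      · subst h'
        rw [mem_tog_ne _ h, mem_tog_self, mem_tog_self, mem_tog_ne _ h]
      · rw [mem_tog_ne _ h, mem_tog_ne _ h', mem_tog_ne _ h', mem_tog_ne _ h]

theorem sum_tog (i : α) (f : Finset α → ℝ) : ∑ A, f (tog i A) = ∑ A, f A := by
  have hinv : Function.Involutive (tog i : Finset α → Finset α) := tog_tog i
  exact Equiv.sum_comp hinv.toPerm f

/-- The sign of the pair `j, k`. -/
noncomputable def c (j k : α) : ℝ :=
  if Fintype.equivFin α k < Fintype.equivFin α j then -1 else 1

omit [DecidableEq α] in
theorem c_self (j : α) : c j j = 1 := by simp [c]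

omit [DecidableEq α] in
theorem c_sq (j k : α) : c j k * c j k = 1 := by
  unfold c
  split_ifs <;> norm_num

omit [DecidableEq α] in
theorem c_anti {j k : α} (h : j ≠ k) : c j k * c k j = -1 := by
  have hne : Fintype.equivFin α j ≠ Fintype.equivFin α k := fun h' =>
    h ((Fintype.equivFin α).injective h')
  unfold c
  rcases lt_or_gt_of_ne hne with h1 | h1
  · rw [if_neg (not_lt.2 h1.le), if_pos h1]
    norm_num
  · rw [if_pos h1, if_neg (not_lt.2 h1.le)]
    norm_num

/-- The sign of direction `j` at the set `A`. -/
noncomputable def s (j : α) (A : Finset α) : ℝ := ∏ k ∈ A, c j k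

theorem s_sq (j : α) (A : Finset α) : s j A * s j A = 1 := by
  rw [s, ← Finset.prod_mul_distrib]
  exact Finset.prod_eq_one fun k _ => c_sq j k

theorem s_tog (j i : α) (A : Finset α) : s j (tog i A) = c j i * s j A := by
  unfold tog
  split_ifs with h
  · have h1 : c j i * ∏ k ∈ A.erase i, c j k = ∏ k ∈ A, c j k := Finset.mul_prod_erase A _ h
    unfold s
    rw [← h1, ← mul_assoc, c_sq, one_mul]
  · unfold s
    rw [Finset.prod_insert h]

/-- The signed adjacency operator with the directions in `J`. -/
noncomputable def opM (J : Finset α) (φ : Finset α → ℝ) (A : Finset α) : ℝ :=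
  ∑ j ∈ J, s j A * φ (tog j A)

theorem cross_zero (φ : Finset α → ℝ) {j k : α} (h : j ≠ k) :
    ∑ A, (s j A * φ (tog j A)) * (s k A * φ (tog k A)) = 0 := by
  have h1 : ∑ A, (s j A * φ (tog j A)) * (s k A * φ (tog k A)) =
      ∑ A, (s j (tog j (tog k A)) * φ (tog j (tog j (tog k A)))) *
        (s k (tog j (tog k A)) * φ (tog k (tog j (tog k A)))) := by
    rw [← sum_tog k, ← sum_tog j]
    refine Finset.sum_congr rfl fun A _ => ?_
    rw [tog_comm k j A]
  have h2 : ∀ A, (s j (tog j (tog k A)) * φ (tog j (tog j (tog k A)))) *
        (s k (tog j (tog k A)) * φ (tog k (tog j (tog k A)))) =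
      -((s j A * φ (tog j A)) * (s k A * φ (tog k A))) := by
    intro A
    have e1 : s j (tog j (tog k A)) = c j k * s j A := by
      rw [s_tog, s_tog, c_self, one_mul]
    have e2 : s k (tog j (tog k A)) = c k j * s k A := by
      rw [s_tog, s_tog, c_self, one_mul]
    have e3 : tog j (tog j (tog k A)) = tog k A := tog_tog _ _
    have e4 : tog k (tog j (tog k A)) = tog j A := by
      rw [tog_comm k j, tog_tog]
    rw [e1, e2, e3, e4]
    have e5 := c_anti h
    calc c j k * s j A * φ (tog k A) * (c k j * s k A * φ (tog j A))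
        = (c j k * c k j) * ((s j A * φ (tog j A)) * (s k A * φ (tog k A))) := by ring
      _ = _ := by
        rw [e5]
        ring
  rw [Finset.sum_congr rfl fun A _ => h2 A, Finset.sum_neg_distrib] at h1
  linarith

theorem norm_opM (J : Finset α) (φ : Finset α → ℝ) :
    ∑ A, (opM J φ A) ^ 2 = J.card * ∑ A, φ A ^ 2 := by
  have h1 : ∀ A, (opM J φ A) ^ 2 =
      ∑ j ∈ J, ∑ k ∈ J, (s j A * φ (tog j A)) * (s k A * φ (tog k A)) := by
    intro A
    rw [opM, sq, Finset.sum_mul_sum]
  rw [Finset.sum_congr rfl fun A _ => h1 A, Finset.sum_comm]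
  have h2 : ∀ j ∈ J, ∑ A, ∑ k ∈ J, (s j A * φ (tog j A)) * (s k A * φ (tog k A)) =
      ∑ A, φ A ^ 2 := by
    intro j hj
    rw [Finset.sum_comm, Finset.sum_eq_single j]
    · rw [← sum_tog j (fun A => φ A ^ 2)]
      refine Finset.sum_congr rfl fun A _ => ?_
      calc (s j A * φ (tog j A)) * (s j A * φ (tog j A))
          = (s j A * s j A) * φ (tog j A) ^ 2 := by ring
        _ = _ := by rw [s_sq, one_mul]
    · intro k _ hk
      exact cross_zero φ hk.symm
    · intro h
      exact absurd hj h
  rw [Finset.sum_congr rfl h2, Finset.sum_const, nsmul_eq_mul]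

theorem opM_opM (φ : Finset α → ℝ) (A : Finset α) :
    opM univ (opM univ φ) A = Fintype.card α * φ A := by
  have h1 : opM univ (opM univ φ) A =
      ∑ j, ∑ k, s j A * (c k j * s k A) * φ (tog k (tog j A)) := by
    unfold opM
    refine Finset.sum_congr rfl fun j _ => ?_
    rw [Finset.mul_sum]
    refine Finset.sum_congr rfl fun k _ => ?_
    rw [s_tog]
    ring
  have h2 : opM univ (opM univ φ) A =
      ∑ j, ∑ k, s k A * (c j k * s j A) * φ (tog k (tog j A)) := by
    rw [h1, Finset.sum_comm]
    refine Finset.sum_congr rfl fun j _ => Finset.sum_congr rfl fun k _ => ?_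
    rw [tog_comm]
  have h3 : opM univ (opM univ φ) A + opM univ (opM univ φ) A =
      ∑ j : α, ∑ k : α, if j = k then 2 * φ A else 0 := by
    nth_rewrite 1 [h1]
    rw [h2, ← Finset.sum_add_distrib]
    refine Finset.sum_congr rfl fun j _ => ?_
    rw [← Finset.sum_add_distrib]
    refine Finset.sum_congr rfl fun k _ => ?_
    split_ifs with h
    · subst h
      rw [c_self, tog_tog]
      calc s j A * (1 * s j A) * φ A + s j A * (1 * s j A) * φ A
          = 2 * (s j A * s j A) * φ A := by ring
        _ = 2 * φ A := by rw [s_sq, mul_one]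
    · have h4 := c_anti h
      have h5 : c k j = -c j k := by
        have h6 := c_sq j k
        calc c k j = (c j k * c j k) * c k j := by rw [h6, one_mul]
          _ = c j k * (c j k * c k j) := by ring
          _ = -c j k := by rw [h4]; ring
      rw [h5]
      ring
  have h4 : ∑ j : α, ∑ k : α, (if j = k then 2 * φ A else 0) =
      Fintype.card α * (2 * φ A) := by
    rw [Finset.sum_congr rfl fun j _ => Finset.sum_ite_eq Finset.univ j _]
    simp [Finset.card_univ]
  rw [h4] at h3
  linarith

/-- The operator as a linear map. -/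
noncomputable def linM (α : Type*) [Fintype α] [DecidableEq α] :
    (Finset α → ℝ) →ₗ[ℝ] (Finset α → ℝ) where
  toFun φ := opM univ φ
  map_add' φ ψ := by
    ext A
    simp only [opM, Pi.add_apply, mul_add, Finset.sum_add_distrib]
  map_smul' a φ := by
    ext A
    simp only [opM, Pi.smul_apply, smul_eq_mul, RingHom.id_apply, Finset.mul_sum]
    refine Finset.sum_congr rfl fun j _ => ?_
    ring

/-- Extension by zero. -/
noncomputable def ext0 (Z : Finset (Finset α)) :
    (Z → ℝ) →ₗ[ℝ] (Finset α → ℝ) where
  toFun ψ A := if h : A ∈ Z then ψ ⟨A, h⟩ else 0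
  map_add' φ ψ := by
    ext A
    by_cases h : A ∈ Z <;> simp [h]
  map_smul' a φ := by
    ext A
    by_cases h : A ∈ Z <;> simp [h]

/-- If no eigenvector is supported on `Z` then `Z` has at most half of the sets. -/
theorem card_le_half (Z : Finset (Finset α))
    (hZ : ∀ (l : ℝ) (φ : Finset α → ℝ), l ^ 2 = Fintype.card α → (∀ A ∉ Z, φ A = 0) →
      (∀ A, opM univ φ A = l * φ A) → ∀ A, φ A = 0) :
    2 * Z.card ≤ 2 ^ Fintype.card α := by
  set l : ℝ := Real.sqrt (Fintype.card α) with hl
  have hl2 : l ^ 2 = Fintype.card α := Real.sq_sqrt (Nat.cast_nonneg _)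
  let P : (Finset α → ℝ) →ₗ[ℝ] (Finset α → ℝ) := linM α - l • LinearMap.id
  let Q : (Finset α → ℝ) →ₗ[ℝ] (Finset α → ℝ) := linM α + l • LinearMap.id
  have hMM : ∀ φ, linM α (linM α φ) = (Fintype.card α : ℝ) • φ := by
    intro φ
    ext A
    exact opM_opM φ A
  have hPQ : LinearMap.range Q ≤ LinearMap.ker P := by
    rintro _ ⟨φ, rfl⟩
    rw [LinearMap.mem_ker]
    simp only [P, Q, LinearMap.sub_apply, LinearMap.add_apply, LinearMap.smul_apply,
      LinearMap.id_apply, map_add, map_smul, hMM]
    rw [← hl2]
    ext A
    simp only [Pi.add_apply, Pi.sub_apply, Pi.smul_apply, smul_eq_mul, Pi.zero_apply]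
    ring
  have hinj : ∀ (l' : ℝ), l' ^ 2 = Fintype.card α →
      Function.Injective ((linM α - l' • LinearMap.id) ∘ₗ ext0 Z) := by
    intro l' hl'
    rw [← LinearMap.ker_eq_bot, LinearMap.ker_eq_bot']
    intro ψ hψ
    have h1 := hZ l' (ext0 Z ψ) hl' (by
      intro A hA
      simp [ext0, hA]) (by
      intro A
      have h2 := congrFun hψ A
      simp only [LinearMap.coe_comp, Function.comp_apply, LinearMap.sub_apply,
        LinearMap.smul_apply, LinearMap.id_apply, Pi.sub_apply, Pi.smul_apply, smul_eq_mul,
        Pi.zero_apply] at h2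
      have h3 : linM α (ext0 Z ψ) A = opM univ (ext0 Z ψ) A := rfl
      rw [h3] at h2
      linarith)
    ext A
    have h2 := h1 A
    simpa [ext0, A.2] using h2
  have hP : Z.card ≤ Module.finrank ℝ (LinearMap.range P) := by
    have h1 : Module.finrank ℝ (LinearMap.range (P ∘ₗ ext0 Z)) = Z.card := by
      rw [LinearMap.finrank_range_of_inj (hinj l hl2), Module.finrank_fintype_fun_eq_card,
        Fintype.card_coe]
    rw [← h1]
    exact Submodule.finrank_mono (LinearMap.range_comp_le_range _ _)
  have hQ : Z.card ≤ Module.finrank ℝ (LinearMap.range Q) := by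
    have hQ' : Q = linM α - (-l) • LinearMap.id := by
      ext φ A
      simp [Q]
    have h1 : Module.finrank ℝ (LinearMap.range (Q ∘ₗ ext0 Z)) = Z.card := by
      rw [hQ', LinearMap.finrank_range_of_inj (hinj (-l) (by rw [neg_sq, hl2])),
        Module.finrank_fintype_fun_eq_card, Fintype.card_coe]
    rw [← h1]
    exact Submodule.finrank_mono (LinearMap.range_comp_le_range _ _)
  have h1 := LinearMap.finrank_range_add_finrank_ker P
  rw [Module.finrank_fintype_fun_eq_card, Fintype.card_finset] at h1
  have h2 := Submodule.finrank_mono hPQ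
  omega

/-- If the members of `Z` fall into classes, one for each direction `i`, such that there are no
edges of the cube between different classes and no edge in direction `i` from the class of `i`
to `Z`, then `Z` has at most half of the sets. -/
theorem card_le_half_of_classes (Z : Finset (Finset α)) (r : Finset α → α)
    (h1 : ∀ C ∈ Z, tog (r C) C ∉ Z) (h2 : ∀ C ∈ Z, ∀ j, tog j C ∈ Z → r (tog j C) = r C) :
    2 * Z.card ≤ 2 ^ Fintype.card α := by
  refine card_le_half Z ?_
  intro l φ hl hφ hM
  -- the part of `φ` in the class of `i`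
  have key : ∀ i : α, ∑ A, (if A ∈ Z ∧ r A = i then φ A else 0) ^ 2 = 0 := by
    intro i
    set φi : Finset α → ℝ := fun A => if A ∈ Z ∧ r A = i then φ A else 0 with hφi
    have h3 := norm_opM (univ.erase i) φi
    have h4 : ∑ A, (l * φi A) ^ 2 ≤ ∑ A, (opM (univ.erase i) φi A) ^ 2 := by
      refine Finset.sum_le_sum fun A _ => ?_
      by_cases hA : A ∈ Z ∧ r A = i
      · refine le_of_eq ?_
        congr 1
        have h5 : φi A = φ A := by simp [hφi, hA]
        rw [h5, ← hM A]
        unfold opM
        rw [← Finset.add_sum_erase Finset.univ _ (Finset.mem_univ i)]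
        have h6 : φ (tog i A) = 0 := by
          apply hφ
          have := h1 A hA.1
          rwa [hA.2] at this
        rw [h6, mul_zero, zero_add]
        refine Finset.sum_congr rfl fun j _ => ?_
        congr 1
        by_cases hj : tog j A ∈ Z
        · have h7 : r (tog j A) = i := by rw [h2 A hA.1 j hj, hA.2]
          simp [hφi, hj, h7]
        · rw [hφ _ hj]
          simp [hφi, hj]
      · have h5 : φi A = 0 := by
          simp only [hφi]
          rw [if_neg hA]
        have h6 := sq_nonneg (opM (univ.erase i) φi A)
        rw [h5]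
        simpa using h6
    rw [h3, Finset.card_erase_of_mem (Finset.mem_univ i), Finset.card_univ] at h4
    have h5 : ∑ A, (l * φi A) ^ 2 = Fintype.card α * ∑ A, φi A ^ 2 := by
      rw [Finset.mul_sum]
      refine Finset.sum_congr rfl fun A _ => ?_
      rw [mul_pow, hl]
    rw [h5] at h4
    have h6 : 0 < Fintype.card α := Fintype.card_pos_iff.2 ⟨i⟩
    have h7 : ((Fintype.card α - 1 : ℕ) : ℝ) = Fintype.card α - 1 := by
      rw [Nat.cast_sub h6]
      norm_num
    rw [h7] at h4
    have h8 : 0 ≤ ∑ A, φi A ^ 2 := Finset.sum_nonneg fun A _ => sq_nonneg _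
    nlinarith
  intro A
  by_cases hA : A ∈ Z
  · have h3 := (Finset.sum_eq_zero_iff_of_nonneg (fun B _ => sq_nonneg _)).1 (key (r A)) A
      (Finset.mem_univ A)
    rw [if_pos ⟨hA, rfl⟩] at h3
    exact pow_eq_zero_iff (two_ne_zero) |>.1 h3
  · exact hφ A hA

end Clifford

section Exits

variable {α : Type*} [Fintype α] [DecidableEq α]

/-- The sets outside `F` which cover a member of `F`. -/
def exits (F : Finset (Finset α)) : Finset (Finset α) :=
  univ.filter (fun C => C ∉ F ∧ ∃ i ∈ C, C.erase i ∈ F)

theorem mem_exits (F : Finset (Finset α)) (C : Finset α) :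
    C ∈ exits F ↔ C ∉ F ∧ ∃ i ∈ C, C.erase i ∈ F := by
  simp [exits]

/-- Karpas: for a union-closed family at most half of the sets are exits. -/
theorem exits_card (F : Finset (Finset α)) (hF : UnionClosed F) :
    2 * (exits F).card ≤ 2 ^ Fintype.card α := by
  classical
  rcases isEmpty_or_nonempty α with hα | hα
  · have h1 : exits F = ∅ := by
      refine Finset.eq_empty_of_forall_notMem fun C hC => ?_
      obtain ⟨_, i, _, _⟩ := (mem_exits F C).1 hC
      exact hα.elim i
    rw [h1, Finset.card_empty]
    exact Nat.zero_le _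
  · let r : Finset α → α := fun C =>
      if h : ∃ i ∈ C, C.erase i ∈ F then h.choose else Classical.choice hα
    have hr : ∀ C ∈ exits F, r C ∈ C ∧ C.erase (r C) ∈ F ∧ C ∉ F := by
      intro C hC
      obtain ⟨h1, h2⟩ := (mem_exits F C).1 hC
      have h3 : r C = h2.choose := by
        simp only [r]
        rw [dif_pos h2]
      rw [h3]
      exact ⟨h2.choose_spec.1, h2.choose_spec.2, h1⟩
    refine card_le_half_of_classes (exits F) r ?_ ?_
    · intro C hC hcon
      obtain ⟨h1, h2, h3⟩ := hr C hC
      have h4 : tog (r C) C = C.erase (r C) := by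
        unfold tog
        rw [if_pos h1]
      rw [h4] at hcon
      exact ((mem_exits F _).1 hcon).1 h2
    · intro C hC j hj
      obtain ⟨h1, h2, h3⟩ := hr C hC
      obtain ⟨h4, h5, h6⟩ := hr _ hj
      set i := r C with hi
      set k := r (tog j C) with hk
      have hji : i ≠ j := by
        intro h
        rw [← h] at h6
        have : tog i C = C.erase i := by
          unfold tog
          rw [if_pos h1]
        rw [this] at h6
        exact h6 h2
      have hjk : k ≠ j := by
        intro h
        rw [h] at h4 h5
        have h7 : (tog j C).erase j = C := by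
          have h8 : j ∉ C := (mem_tog_self j C).1 h4
          unfold tog
          rw [if_neg h8, Finset.erase_insert h8]
        rw [h7] at h5
        exact h3 h5
      by_contra hne
      have hiC' : i ∈ tog j C := (mem_tog_ne C hji).2 h1
      have hkC : k ∈ C := (mem_tog_ne C hjk).1 h4
      have hU : C.erase i ∪ (tog j C).erase k = C ∪ tog j C := by
        ext z
        simp only [Finset.mem_union, Finset.mem_erase]
        constructor
        · rintro (h | h)
          · exact Or.inl h.2
          · exact Or.inr h.2
        · rintro (h | h)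
          · by_cases hz : z = i
            · right
              rw [hz]
              exact ⟨fun h => hne h.symm, hiC'⟩
            · exact Or.inl ⟨hz, h⟩
          · by_cases hz : z = k
            · left
              rw [hz]
              exact ⟨hne, hkC⟩
            · exact Or.inr ⟨hz, h⟩
      have hmem := hF _ h2 _ h5
      rw [hU] at hmem
      by_cases hjC : j ∈ C
      · have h7 : C ∪ tog j C = C := by
          refine Finset.union_eq_left.2 ?_
          unfold tog
          rw [if_pos hjC]
          exact Finset.erase_subset _ _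
        rw [h7] at hmem
        exact h3 hmem
      · have h7 : C ∪ tog j C = tog j C := by
          refine Finset.union_eq_right.2 ?_
          unfold tog
          rw [if_neg hjC]
          exact Finset.subset_insert _ _
        rw [h7] at hmem
        exact h6 hmem

/-- Pairs going up out of the family: each exit is hit once. -/
theorem up_le_exits (F : Finset (Finset α)) (hF : UnionClosed F) :
    ∑ A ∈ F, (Aᶜ.filter (fun x => ¬ insert x A ∈ F)).card ≤ (exits F).card := by
  rw [← Finset.card_sigma]
  refine Finset.card_le_card_of_injOn (fun p => insert p.2 p.1) ?_ ?_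
  · rintro ⟨A, x⟩ hp
    simp only [Finset.coe_sigma, Set.mem_sigma_iff, Finset.mem_coe, Finset.mem_filter,
      Finset.mem_compl] at hp ⊢
    refine (mem_exits F _).2 ⟨hp.2.2, x, Finset.mem_insert_self _ _, ?_⟩
    rw [Finset.erase_insert hp.2.1]
    exact hp.1
  · rintro ⟨A, x⟩ hp ⟨B, y⟩ hq h
    simp only [Finset.coe_sigma, Set.mem_sigma_iff, Finset.mem_coe, Finset.mem_filter,
      Finset.mem_compl] at hp hq h
    obtain ⟨hA, hx, hAx⟩ := hp
    obtain ⟨hB, hy, hBy⟩ := hq
    by_cases hxy : x = y
    · subst hxy
      have : A = B := by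
        rw [← Finset.erase_insert hx, ← Finset.erase_insert hy, h]
      subst this
      rfl
    · exfalso
      apply hAx
      have hAB : A ∪ B = insert x A := by
        ext z
        have hz : z ∈ insert x A ↔ z ∈ insert y B := by rw [h]
        simp only [Finset.mem_insert, Finset.mem_union] at hz ⊢
        constructor
        · rintro (h1 | h1)
          · exact Or.inr h1
          · exact hz.2 (Or.inr h1)
        · rintro (h1 | h1)
          · right
            rcases hz.1 (Or.inl h1) with h2 | h2
            · exact absurd (h1.symm.trans h2) hxy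
            · exact h2
          · exact Or.inl h1
      rw [← hAB]
      exact hF A hA B hB

/-- Twice the number of pairs `(A, x)` with `A ∈ F`, `x ∉ A`, `A ∪ {x} ∉ F` is at most `2^n`. -/
theorem two_up_le (F : Finset (Finset α)) (hF : UnionClosed F) :
    2 * ∑ A ∈ F, (Aᶜ.filter (fun x => ¬ insert x A ∈ F)).card ≤ 2 ^ Fintype.card α :=
  (Nat.mul_le_mul_left 2 (up_le_exits F hF)).trans (exits_card F hF)

end Exits

end Pool.Agent.UCAlmost
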